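import Mathlib
import Pool.Agent.H6.NearInt

namespace Pool.Agent.Results.MP_af7c6a_co.Superlinear

open Filter

/-- The largest `n` for which some closed `N`-ball of radius `X` holds `n` points whose pairwise
`N`-distances are all at distance at least `δ` from the nearest integer. -/
noncomputable def count {d : ℕ} (N : (Fin d → ℝ) → ℝ) (X δ : ℝ) : ℕ :=
  sSup {n : ℕ | ∃ (c : Fin d → ℝ) (p : Fin n → Fin d → ℝ), (∀ i, N (p i - c) ≤ X) ∧
    ∀ i j, i ≠ j → δ ≤ |N (p i - p j) - (round (N (p i - p j)) : ℝ)|}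

open Pool.Agent.H6.NearInt

lemma half (t : ℝ) (k : ℤ) (h : t = k + 1 / 2) : |t - (round t : ℝ)| = 1 / 2 := by
  rw [h, add_comm, round_add_intCast]
  norm_num [round_eq]

theorem result : ∃ (d : ℕ) (N : Seminorm ℝ (Fin d → ℝ)), 1 ≤ d ∧ (∀ x, N x = 0 → x = 0) ∧
    ∀ δ : ℝ, 0 < δ → δ < 1 / 2 →
      Tendsto (fun X : ℝ => (count N X δ : ℝ) / X) atTop atTop := by
  obtain ⟨N, h1, h2, h3⟩ := main
  have hfr : Module.finrank ℝ (Fin 108 → ℝ) = Module.finrank ℝ E := by simp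
  let L : (Fin 108 → ℝ) ≃ₗ[ℝ] E := LinearEquiv.ofFinrankEq _ _ hfr
  refine ⟨108, N.comp L.toLinearMap, by norm_num, fun x hx => ?_, fun δ hδ hδ2 => ?_⟩
  · have : ‖L x‖ ≤ 0 := by
      have := h1 (L x)
      simp only [Seminorm.comp_apply, LinearEquiv.coe_coe] at hx
      linarith
    exact L.map_eq_zero_iff.1 (norm_le_zero_iff.1 this)
  have key : ∀ (X : ℝ) (q : ℕ), 1 ≤ q → 128304 * (q : ℝ) ^ 5 ≤ X →
      q ^ 6 ≤ count (N.comp L.toLinearMap) X δ := by
    intro X q hq hX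
    obtain ⟨p, hp1, hp2⟩ := h3 q hq
    obtain ⟨B, hB⟩ := bdd (E := E) X (δ / 2) (by linarith)
    refine le_csSup ⟨B, ?_⟩ ⟨0, fun i => L.symm (p i), fun i => ?_, fun i j hij => ?_⟩
    · rintro n ⟨c, u, hu1, hu2⟩
      refine hB n (fun i => L (u i - c)) (fun i => (h1 _).trans (hu1 i)) fun i j hij => ?_
      have a := hu2 i j hij
      have e : L (u i - c) - L (u j - c) = L (u i - u j) := by
        rw [← map_sub]; congr 1; abel
      rw [e]
      have b := h2 (L (u i - u j))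
      have c := round_le ((N.comp L.toLinearMap) (u i - u j)) 0
      simp only [Seminorm.comp_apply, LinearEquiv.coe_coe, Int.cast_zero, sub_zero] at a c
      rw [abs_of_nonneg (apply_nonneg N _)] at c
      linarith
    · simpa using (hp1 i).trans hX
    · obtain ⟨k, hk⟩ := hp2 i j hij
      rw [half _ k (by simpa using hk)]
      exact hδ2.le
  rw [tendsto_atTop]
  intro M
  obtain ⟨m, hm⟩ := exists_nat_ge (max 1 (M * (128304 * 32)))
  have m1 : (1 : ℝ) ≤ m := (le_max_left _ _).trans hm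
  have m2 : M * (128304 * 32) ≤ m := (le_max_right _ _).trans hm
  filter_upwards [eventually_ge_atTop (128304 * (m : ℝ) ^ 5)] with X hX
  have hex : ∃ n : ℕ, X < 128304 * ((n + 1 : ℕ) : ℝ) ^ 5 := by
    obtain ⟨n, hn⟩ := exists_nat_ge X
    refine ⟨n, ?_⟩
    have a : ((n + 1 : ℕ) : ℝ) ≤ ((n + 1 : ℕ) : ℝ) ^ 5 :=
      le_self_pow₀ (by exact_mod_cast Nat.succ_le_succ (Nat.zero_le n)) (by norm_num)
    push_cast at a ⊢
    have : (0 : ℝ) ≤ n := Nat.cast_nonneg n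
    linarith
  obtain ⟨q, hq⟩ : ∃ q, q = Nat.find hex := ⟨_, rfl⟩
  have q1 : X < 128304 * ((q + 1 : ℕ) : ℝ) ^ 5 := hq ▸ Nat.find_spec hex
  have mq : m ≤ q := by
    by_contra hlt
    have : ((q + 1 : ℕ) : ℝ) ≤ m := by exact_mod_cast (by omega : q + 1 ≤ m)
    have : ((q + 1 : ℕ) : ℝ) ^ 5 ≤ (m : ℝ) ^ 5 := by gcongr
    linarith
  have m3 : 1 ≤ m := by exact_mod_cast m1
  have q2 : 128304 * (q : ℝ) ^ 5 ≤ X := by
    have := Nat.find_min hex (m := q - 1) (by omega)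
    rw [show q - 1 + 1 = q by omega] at this
    exact not_lt.1 this
  have q3 : ((q : ℝ)) ^ 6 ≤ (count (N.comp L.toLinearMap) X δ : ℝ) := by
    exact_mod_cast key X q (by omega) q2
  have mq' : (m : ℝ) ≤ q := by exact_mod_cast mq
  have q0 : (1 : ℝ) ≤ q := m1.trans mq'
  have X0 : 0 < X := lt_of_lt_of_le (by positivity) q2
  rw [le_div_iff₀ X0]
  refine le_trans ?_ q3
  have q4 : X ≤ 128304 * 32 * (q : ℝ) ^ 5 := by
    have : ((q + 1 : ℕ) : ℝ) ^ 5 ≤ (2 * (q : ℝ)) ^ 5 := by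
      gcongr; push_cast; linarith
    nlinarith
  rcases le_or_gt M 0 with hM | hM
  · exact le_trans (mul_nonpos_of_nonpos_of_nonneg hM X0.le) (by positivity)
  · calc M * X ≤ M * (128304 * 32 * (q : ℝ) ^ 5) := by gcongr
      _ = (M * (128304 * 32)) * (q : ℝ) ^ 5 := by ring
      _ ≤ q * (q : ℝ) ^ 5 := by gcongr; linarith
      _ = _ := by ring

end Pool.Agent.Results.MP_af7c6a_co.Superlinear
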